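import Pool.Agent.W98.OS.Defs

set_option autoImplicit false

namespace Pool.Agent.W465.OS

open Pool.Agent.Helper929 Pool.Agent.W98.OS MvPowerSeries

/-- the coefficient of a product of two series in disjoint sets of variables -/
lemma coeff_mul_disj {m : ℕ} (p q : Fin m → Prop) (hpq : ∀ i, p i → ¬ q i)
    (F G : MvPowerSeries (Fin m) ℚ) (f g : (Fin m →₀ ℕ) → ℚ)
    (hf : ∀ u v : Fin m →₀ ℕ, (∀ i, p i → u i = v i) → f u = f v)
    (hg : ∀ u v : Fin m →₀ ℕ, (∀ i, q i → u i = v i) → g u = g v)
    (hF1 : ∀ d : Fin m →₀ ℕ, (∀ i, ¬ p i → d i = 0) → coeff d F = f d)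
    (hF0 : ∀ d : Fin m →₀ ℕ, ¬ (∀ i, ¬ p i → d i = 0) → coeff d F = 0)
    (hG1 : ∀ d : Fin m →₀ ℕ, (∀ i, ¬ q i → d i = 0) → coeff d G = g d)
    (hG0 : ∀ d : Fin m →₀ ℕ, ¬ (∀ i, ¬ q i → d i = 0) → coeff d G = 0) (d : Fin m →₀ ℕ) :
    ((∀ i, ¬ p i → ¬ q i → d i = 0) → coeff d (F * G) = f d * g d) ∧
    (¬ (∀ i, ¬ p i → ¬ q i → d i = 0) → coeff d (F * G) = 0) := by
  classical
  have hzero : ∀ u v : Fin m →₀ ℕ, u + v = d →
      (¬ ((∀ i, ¬ p i → u i = 0) ∧ (∀ i, ¬ q i → v i = 0))) → coeff u F * coeff v G = 0 := by
    intro u v _ h
    rcases not_and_or.1 h with h | h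
    · rw [hF0 u h, zero_mul]
    · rw [hG0 v h, mul_zero]
  constructor
  · intro h
    rw [coeff_mul]
    have hu0 : ∀ i, ¬ p i → (d.filter p) i = 0 := by
      intro i hi
      exact Finsupp.filter_apply_neg p d hi
    have hv0 : ∀ i, ¬ q i → (d.filter q) i = 0 := by
      intro i hi
      exact Finsupp.filter_apply_neg q d hi
    have huv : d.filter p + d.filter q = d := by
      ext i
      rw [Finsupp.add_apply]
      by_cases hp : p i
      · rw [Finsupp.filter_apply_pos p d hp, Finsupp.filter_apply_neg q d (hpq i hp), add_zero]
      · by_cases hq : q i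
        · rw [Finsupp.filter_apply_neg p d hp, Finsupp.filter_apply_pos q d hq, zero_add]
        · rw [Finsupp.filter_apply_neg p d hp, Finsupp.filter_apply_neg q d hq, h i hp hq,
            add_zero]
    rw [Finset.sum_eq_single (d.filter p, d.filter q)]
    · rw [hF1 _ hu0, hG1 _ hv0]
      congr 1
      · apply hf
        intro i hi
        exact Finsupp.filter_apply_pos p d hi
      · apply hg
        intro i hi
        exact Finsupp.filter_apply_pos q d hi
    · rintro ⟨u, v⟩ huv' hne
      rw [Finset.HasAntidiagonal.mem_antidiagonal] at huv'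
      apply hzero u v huv'
      rintro ⟨h1, h2⟩
      apply hne
      have h3 : ∀ i, u i + v i = d i := by
        intro i
        rw [← Finsupp.add_apply, huv']
      rw [Prod.mk.injEq]
      constructor
      · ext i
        by_cases hp : p i
        · rw [Finsupp.filter_apply_pos p d hp, ← h3, h2 i (hpq i hp), add_zero]
        · rw [Finsupp.filter_apply_neg p d hp, h1 i hp]
      · ext i
        by_cases hq : q i
        · have hp : ¬ p i := fun hp => hpq i hp hq
          rw [Finsupp.filter_apply_pos q d hq, ← h3, h1 i hp, zero_add]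
        · rw [Finsupp.filter_apply_neg q d hq, h2 i hq]
    · intro hnot
      exact absurd (Finset.HasAntidiagonal.mem_antidiagonal.2 huv) hnot
  · intro h
    rw [coeff_mul]
    apply Finset.sum_eq_zero
    rintro ⟨u, v⟩ huv
    rw [Finset.HasAntidiagonal.mem_antidiagonal] at huv
    apply hzero u v huv
    rintro ⟨h1, h2⟩
    apply h
    intro i hp hq
    rw [← huv, Finsupp.add_apply, h1 i hp, h2 i hq]

/-- Pfaffians with a repeated point vanish -/
lemma pfG_rep (n : ℕ) (x : Fin n → Option ℕ) (g : Option ℕ → Option ℕ → ℚ)
    (hg : ∀ a b, g a b = - g b a) (i j : Fin n) (hij : i ≠ j) (hx : x i = x j) :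
    pfG g n x = 0 := by
  classical
  let φ : Fin n → Fin n := fun k => if k = j then i else k
  have hφ : ∀ k, x (φ k) = x k := by
    intro k
    simp only [φ]
    split_ifs with h
    · rw [h, hx]
    · rfl
  let P : Matrix (Fin n) (Fin n) ℚ := Matrix.of fun a b => if φ a = b then 1 else 0
  have hP : P.det = 0 := by
    apply Matrix.det_zero_of_row_eq hij
    have e1 : φ i = i := by simp [φ]
    have e2 : φ j = i := by simp [φ]
    ext b
    simp only [P, Matrix.of_apply]
    rw [e1, e2]
  set A : Matrix (Fin n) (Fin n) ℚ := Matrix.of fun a b => g (x a) (x b) with hA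
  have h1 := pf_gram A (fun a b => by rw [hA, Matrix.of_apply, Matrix.of_apply]; exact hg _ _) P
  have h2 : P * A * P.transpose = A := by
    ext a b
    simp only [Matrix.mul_apply, P, Matrix.of_apply, Matrix.transpose_apply, hA, ite_mul, one_mul,
      zero_mul, Finset.sum_ite_eq, Finset.mem_univ, if_true, mul_ite, mul_one, mul_zero, hφ]
  rw [h2, hP, zero_mul] at h1
  exact h1

lemma gC_anti (a b : Option ℕ) : gC a b = - gC b a := by
  cases a <;> cases b
  · simp [gC]
  · simp [gC]
  · simp [gC]
  · simp only [gC]
    exact Pool.Agent.W223.Osasm.c_skew _ _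

lemma pfG_congr_aux {m n : ℕ} (y : Fin n → Option (Fin m)) (u v : Fin m →₀ ℕ)
    (h : ∀ i, (∃ k, y k = some i) → u i = v i) :
    (fun k => (y k).map u) = (fun k => (y k).map v) := by
  funext k
  cases hk : y k with
  | none => rfl
  | some i => simp only [Option.map_some]; rw [h i ⟨k, hk⟩]

section main

variable {m : ℕ} (g : Option (Fin m) → Option (Fin m) → MvPowerSeries (Fin m) ℚ)
  (hg0 : ∀ a b, g a b = - g b a)
  (hg1 : ∀ i j, i ≠ j → ∀ d : Fin m →₀ ℕ, coeff d (g (some i) (some j)) =
    if (∀ k, k ≠ i → k ≠ j → d k = 0) then gC (some (d i)) (some (d j)) else 0)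
  (hg2 : ∀ i, ∀ d : Fin m →₀ ℕ, coeff d (g (some i) none) =
    if (∀ k, k ≠ i → d k = 0) then 2 ^ (d i) else 0)

include hg0 hg1 hg2

lemma entry (a b : Option (Fin m)) (hab : a ≠ b) (d : Fin m →₀ ℕ) :
    ((∀ i, ¬ (a = some i ∨ b = some i) → d i = 0) →
      coeff d (g a b) = gC (a.map d) (b.map d)) ∧
    (¬ (∀ i, ¬ (a = some i ∨ b = some i) → d i = 0) → coeff d (g a b) = 0) := by
  cases a with
  | none =>
    cases b with
    | none => exact absurd rfl hab
    | some j =>
      rw [hg0, map_neg, hg2]
      have hiff : (∀ k, k ≠ j → d k = 0) ↔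
          (∀ i, ¬ ((none : Option (Fin m)) = some i ∨ some j = some i) → d i = 0) := by
        constructor
        · intro h i hi
          apply h
          rintro rfl
          exact hi (Or.inr rfl)
        · intro h i hi
          apply h
          rintro (h' | h')
          · exact absurd h' (by simp)
          · rw [Option.some.injEq] at h'
            exact hi h'.symm
      rw [← hiff]
      constructor
      · intro h
        rw [if_pos h]
        simp [gC]
      · intro h
        rw [if_neg h, neg_zero]
  | some i =>
    cases b with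
    | none =>
      rw [hg2]
      have hiff : (∀ k, k ≠ i → d k = 0) ↔
          (∀ l, ¬ (some i = some l ∨ (none : Option (Fin m)) = some l) → d l = 0) := by
        constructor
        · intro h l hl
          apply h
          rintro rfl
          exact hl (Or.inl rfl)
        · intro h l hl
          apply h
          rintro (h' | h')
          · rw [Option.some.injEq] at h'
            exact hl h'.symm
          · exact absurd h' (by simp)
      rw [← hiff]
      constructor
      · intro h
        rw [if_pos h]
        simp [gC]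
      · intro h
        rw [if_neg h]
    | some j =>
      have hij : i ≠ j := by
        rintro rfl
        exact hab rfl
      rw [hg1 i j hij]
      have hiff : (∀ k, k ≠ i → k ≠ j → d k = 0) ↔
          (∀ l, ¬ (some i = some l ∨ some j = some l) → d l = 0) := by
        constructor
        · intro h l hl
          apply h
          · rintro rfl
            exact hl (Or.inl rfl)
          · rintro rfl
            exact hl (Or.inr rfl)
        · intro h l hl1 hl2
          apply h
          rintro (h' | h')
          · rw [Option.some.injEq] at h'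
            exact hl1 h'.symm
          · rw [Option.some.injEq] at h'
            exact hl2 h'.symm
      rw [← hiff]
      constructor
      · intro h
        rw [if_pos h]
        rfl
      · intro h
        rw [if_neg h]

lemma claim : ∀ (n : ℕ) (y : Fin n → Option (Fin m)), Function.Injective y → ∀ d : Fin m →₀ ℕ,
    ((∀ i, ¬ (∃ k, y k = some i) → d i = 0) →
      coeff d (pfG g n y) = pfG gC n (fun k => (y k).map d)) ∧
    (¬ (∀ i, ¬ (∃ k, y k = some i) → d i = 0) → coeff d (pfG g n y) = 0)
  | 0, y, _, d => by
    classical
    have h1 : pfG g 0 y = 1 := by simp [pfG, pf]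
    have h2 : pfG gC 0 (fun k => (y k).map d) = 1 := by simp [pfG, pf]
    rw [h1, h2, coeff_one]
    constructor
    · intro h
      rw [if_pos]
      ext i
      apply h
      rintro ⟨k, -⟩
      exact Fin.elim0 k
    · intro h
      rw [if_neg]
      rintro rfl
      apply h
      intro i _
      rfl
  | 1, y, _, d => by
    have h1 : pfG g 1 y = 0 := by simp [pfG, pf]
    have h2 : pfG gC 1 (fun k => (y k).map d) = 0 := by simp [pfG, pf]
    rw [h1, h2, map_zero]
    simp
  | n + 2, y, hy, d => by
    obtain ⟨a, z, rfl⟩ : ∃ (a : Option (Fin m)) (z : Fin (n + 1) → Option (Fin m)),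
        y = Fin.cons a z := ⟨y 0, Fin.tail y, (Fin.cons_self_tail y).symm⟩
    have hz : Function.Injective z := by
      intro i j hij
      have h1 : (Fin.cons a z : Fin (n + 2) → Option (Fin m)) i.succ =
          (Fin.cons a z : Fin (n + 2) → Option (Fin m)) j.succ := by
        rw [Fin.cons_succ, Fin.cons_succ, hij]
      exact Fin.succ_injective _ (hy h1)
    have haz : ∀ j, a ≠ z j := by
      intro j h
      have h1 : (Fin.cons a z : Fin (n + 2) → Option (Fin m)) 0 =
          (Fin.cons a z : Fin (n + 2) → Option (Fin m)) j.succ := by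
        rw [Fin.cons_zero, Fin.cons_succ, h]
      exact absurd (hy h1) (Fin.succ_ne_zero j).symm
    have hterm : ∀ j : Fin (n + 1),
        ((∀ i, ¬ (a = some i ∨ z j = some i) → ¬ (∃ k, z (j.succAbove k) = some i) → d i = 0) →
          coeff d (g a (z j) * pfG g n (fun k => z (j.succAbove k))) =
            gC (a.map d) ((z j).map d) * pfG gC n (fun k => (z (j.succAbove k)).map d)) ∧
        (¬ (∀ i, ¬ (a = some i ∨ z j = some i) → ¬ (∃ k, z (j.succAbove k) = some i) → d i = 0) →
          coeff d (g a (z j) * pfG g n (fun k => z (j.succAbove k))) = 0) := by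
      intro j
      have hzj : Function.Injective (fun k => z (j.succAbove k)) :=
        hz.comp Fin.succAbove_right_injective
      refine coeff_mul_disj (fun i => a = some i ∨ z j = some i)
        (fun i => ∃ k, z (j.succAbove k) = some i) ?_ _ _
        (fun u => gC (a.map u) ((z j).map u))
        (fun u => pfG gC n (fun k => (z (j.succAbove k)).map u)) ?_ ?_
        (fun u => (entry g hg0 hg1 hg2 a (z j) (haz j) u).1)
        (fun u => (entry g hg0 hg1 hg2 a (z j) (haz j) u).2)
        (fun u => (claim n _ hzj u).1) (fun u => (claim n _ hzj u).2) d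
      · rintro i (h | h) ⟨k, hk⟩
        · exact haz _ (h.trans hk.symm)
        · have h1 := hz (h.trans hk.symm)
          exact Fin.succAbove_ne j k h1.symm
      · intro u v huv
        have h1 : a.map u = a.map v := by
          cases ha : a with
          | none => rfl
          | some i => simp only [Option.map_some]; rw [huv i (Or.inl ha)]
        have h2 : (z j).map u = (z j).map v := by
          cases ha : z j with
          | none => rfl
          | some i => simp only [Option.map_some]; rw [huv i (Or.inr ha)]
        simp only [h1, h2]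
      · intro u v huv
        rw [pfG_congr_aux (fun k => z (j.succAbove k)) u v huv]
    have hiff : ∀ j : Fin (n + 1),
        (∀ i, ¬ (a = some i ∨ z j = some i) → ¬ (∃ k, z (j.succAbove k) = some i) → d i = 0) ↔
        (∀ i, ¬ (∃ k, (Fin.cons a z : Fin (n + 2) → Option (Fin m)) k = some i) → d i = 0) := by
      intro j
      constructor
      · intro h i hi
        apply h i
        · rintro (h' | h')
          · exact hi ⟨0, by rw [Fin.cons_zero]; exact h'⟩
          · exact hi ⟨j.succ, by rw [Fin.cons_succ]; exact h'⟩
        · rintro ⟨k, hk⟩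
          exact hi ⟨(j.succAbove k).succ, by rw [Fin.cons_succ]; exact hk⟩
      · intro h i h1 h2
        apply h i
        rintro ⟨k, hk⟩
        refine Fin.cases (fun hk => ?_) (fun k hk => ?_) k hk
        · rw [Fin.cons_zero] at hk
          exact h1 (Or.inl hk)
        · rw [Fin.cons_succ] at hk
          rcases Fin.eq_self_or_eq_succAbove j k with h3 | ⟨l, h3⟩
          · rw [h3] at hk
            exact h1 (Or.inr hk)
          · rw [h3] at hk
            exact h2 ⟨l, hk⟩
    have hneg : ∀ (j : Fin (n + 1)) (F : MvPowerSeries (Fin m) ℚ),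
        coeff d ((-1) ^ (j : ℕ) * F) = (-1) ^ (j : ℕ) * coeff d F := by
      intro j F
      rcases Nat.even_or_odd (j : ℕ) with h | h
      · rw [h.neg_one_pow, h.neg_one_pow, one_mul, one_mul]
      · rw [h.neg_one_pow, h.neg_one_pow, neg_one_mul, neg_one_mul, map_neg]
    have hexp : coeff d (pfG g (n + 2) (Fin.cons a z : Fin (n + 2) → Option (Fin m))) =
        ∑ j : Fin (n + 1), (-1) ^ (j : ℕ) *
          coeff d (g a (z j) * pfG g n (fun k => z (j.succAbove k))) := by
      rw [pfG_cons, map_sum]
      apply Finset.sum_congr rfl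
      intro j _
      rw [mul_assoc, hneg]
    rw [hexp]
    constructor
    · intro h
      have h1 : (fun k => ((Fin.cons a z : Fin (n + 2) → Option (Fin m)) k).map d) =
          (Fin.cons (a.map d) (fun k => (z k).map d) : Fin (n + 2) → Option ℕ) := by
        funext k
        refine Fin.cases ?_ (fun k => ?_) k
        · rw [Fin.cons_zero, Fin.cons_zero]
        · rw [Fin.cons_succ, Fin.cons_succ]
      rw [h1, pfG_cons]
      apply Finset.sum_congr rfl
      intro j _
      rw [(hterm j).1 ((hiff j).2 h), mul_assoc]
    · intro h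
      apply Finset.sum_eq_zero
      intro j _
      rw [(hterm j).2 (fun h' => h ((hiff j).1 h')), mul_zero]

end main

lemma addN_inj (m : ℕ) : Function.Injective (addN (fun i : Fin m => i)) := by
  intro a b
  refine Fin.lastCases (fun h => ?_) (fun a h => ?_) a
  · revert h
    refine Fin.lastCases (fun _ => rfl) (fun b h => ?_) b
    unfold addN at h
    rw [Fin.snoc_last, Fin.snoc_castSucc] at h
    exact absurd h (by simp)
  · revert h
    refine Fin.lastCases (fun h => ?_) (fun b h => ?_) b
    · unfold addN at h
      rw [Fin.snoc_last, Fin.snoc_castSucc] at h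
      exact absurd h (by simp)
    · unfold addN at h
      rw [Fin.snoc_castSucc, Fin.snoc_castSucc, Option.some.injEq] at h
      exact congrArg Fin.castSucc h

theorem T_COEF : S_COEF := by
  intro m g hg0 hg1 hg2 U
  have hc : ∀ d : Fin m →₀ ℕ, coeff d (pfG g (m + 1) (addN (fun i : Fin m => i))) =
      pfG gC (m + 1) (addN (fun i : Fin m => d i)) := by
    intro d
    have h1 := (claim g hg0 hg1 hg2 (m + 1) _ (addN_inj m) d).1 (by
      intro i hi
      exfalso
      apply hi
      refine ⟨i.castSucc, ?_⟩
      unfold addN
      rw [Fin.snoc_castSucc])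
    rw [h1]
    congr 1
    funext k
    refine Fin.lastCases ?_ (fun k => ?_) k
    · unfold addN
      rw [Fin.snoc_last, Fin.snoc_last]
      rfl
    · unfold addN
      rw [Fin.snoc_castSucc, Fin.snoc_castSucc]
      rfl
  rw [coeff_mul, Finset.sum_eq_single ((0 : Fin m →₀ ℕ), e0 m)]
  · rw [hc]
    simp only [coeff_zero_eq_constantCoeff]
    rfl
  · rintro ⟨u, v⟩ huv hne
    rw [Finset.HasAntidiagonal.mem_antidiagonal] at huv
    simp only
    rw [hc]
    have hle : ∀ i : Fin m, v i ≤ (i : ℕ) := by
      intro i
      have h1 : u i + v i = e0 m i := by rw [← huv]; rfl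
      have h2 : e0 m i = (i : ℕ) := rfl
      omega
    have hex : ∃ i j : Fin m, i ≠ j ∧ v i = v j := by
      by_contra hcon
      push Not at hcon
      have hvi : ∀ i : Fin m, v i = (i : ℕ) := by
        intro i
        induction hn : (i : ℕ) using Nat.strong_induction_on generalizing i with
        | _ n ih =>
          have h1 := hle i
          rw [hn] at h1
          by_contra hne'
          have h2 : v i < n := lt_of_le_of_ne h1 hne'
          have h3 : v i < m := by
            have := i.2
            omega
          have h4 := ih (v i) h2 ⟨v i, h3⟩ rfl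
          apply hcon i ⟨v i, h3⟩
          · intro h5
            have := congrArg Fin.val h5
            simp only at this
            omega
          · exact h4.symm
      apply hne
      rw [Prod.mk.injEq]
      have h1 : v = e0 m := by
        ext i
        rw [hvi]
        rfl
      refine ⟨?_, h1⟩
      rw [h1] at huv
      simpa using huv
    obtain ⟨i, j, hij, hvij⟩ := hex
    rw [pfG_rep (m + 1) _ gC gC_anti i.castSucc j.castSucc
      (fun h => hij (Fin.castSucc_injective _ h)) (by
        unfold addN
        rw [Fin.snoc_castSucc, Fin.snoc_castSucc]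
        exact congrArg some hvij), mul_zero]
  · intro hnot
    exact absurd (Finset.HasAntidiagonal.mem_antidiagonal.2 (zero_add _)) hnot

end Pool.Agent.W465.OS
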