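import Pool.Agent.W98.OS.Defs

set_option autoImplicit false

namespace Pool.Agent.W465.OS

open Pool.Agent.Helper929 Pool.Agent.W98.OS MvPowerSeries Pool.Agent.W223.Osasm

lemma crel : ∀ a b : ℕ, c a b - (if 1 ≤ a ∧ 0 ≤ b then c (a - 1) (b - 0) else 0) -
    (if 0 ≤ a ∧ 1 ≤ b then c (a - 0) (b - 1) else 0) -
    (if 1 ≤ a ∧ 1 ≤ b then c (a - 1) (b - 1) else 0) +
    (if 2 ≤ a ∧ 1 ≤ b then c (a - 2) (b - 1) else 0) +
    (if 1 ≤ a ∧ 2 ≤ b then c (a - 1) (b - 2) else 0) =
    (if a = 0 ∧ b = 1 then 1 else 0) - (if a = 1 ∧ b = 0 then 1 else 0)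
  | 0, 0 => by simp [c_zero_zero]
  | 0, 1 => by simp [c_zero_zero, c_zero_succ 0]
  | 0, b + 2 => by simp [c_zero_succ b, c_zero_succ (b + 1)]
  | 1, 0 => by simp [c_zero_zero, c_succ_zero 0]
  | 1, 1 => by simp [c_zero_zero, c_succ_zero 0, c_zero_succ 0, c_one_one]
  | 1, 2 => by
    have h1 := c_one_succ_succ 0
    have h2 := c_zero_succ 0
    have h3 := c_zero_succ 1
    norm_num at h1 h2 h3
    simp [c_zero_zero, c_one_one, h1, h2, h3]
    norm_num
  | 1, b + 3 => by
    have h1 := c_one_succ_succ (b + 1)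
    have h4 := c_one_succ_succ b
    have h2 := c_zero_succ b
    have h3 := c_zero_succ (b + 1)
    have h5 := c_zero_succ (b + 2)
    have e1 : c (1 - 1) (b + 3 - 0) = 1 := h5
    have e2 : c (1 - 0) (b + 3 - 1) = (b : ℚ) + 2 := h4
    have e3 : c (1 - 1) (b + 3 - 1) = 1 := h3
    have e4 : c (1 - 1) (b + 3 - 2) = 1 := h2
    have e5 : c 1 (b + 3) = ((b + 1 : ℕ) : ℚ) + 2 := h1
    rw [e1, e2, e3, e4, e5]
    simp
    ring
  | a + 2, 0 => by
    have h1 := c_succ_zero a
    have h2 := c_succ_zero (a + 1)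
    have e1 : c (a + 2 - 1) (0 - 0) = -1 := h1
    have e2 : c (a + 2) 0 = -1 := h2
    rw [e1, e2]
    simp
  | 2, 1 => by
    have h1 := c_succ_succ_one 0
    have h2 := c_succ_zero 0
    have h3 := c_succ_zero 1
    norm_num at h1 h2 h3
    simp [c_zero_zero, c_one_one, h1, h2, h3]
    norm_num
  | a + 3, 1 => by
    have h1 := c_succ_succ_one (a + 1)
    have h4 := c_succ_succ_one a
    have h2 := c_succ_zero a
    have h3 := c_succ_zero (a + 1)
    have h5 := c_succ_zero (a + 2)
    have e1 : c (a + 3 - 1) (1 - 0) = -((a : ℚ) + 2) := h4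
    have e2 : c (a + 3 - 0) (1 - 1) = -1 := h5
    have e3 : c (a + 3 - 1) (1 - 1) = -1 := h3
    have e4 : c (a + 3 - 2) (1 - 1) = -1 := h2
    have e5 : c (a + 3) 1 = -(((a + 1 : ℕ) : ℚ) + 2) := h1
    rw [e1, e2, e3, e4, e5]
    simp
  | a + 2, b + 2 => by
    have h := c_rec a b
    have e1 : c (a + 2 - 1) (b + 2 - 0) = c (a + 1) (b + 2) := rfl
    have e2 : c (a + 2 - 0) (b + 2 - 1) = c (a + 2) (b + 1) := rfl
    have e3 : c (a + 2 - 1) (b + 2 - 1) = c (a + 1) (b + 1) := rfl
    have e4 : c (a + 2 - 2) (b + 2 - 1) = c a (b + 1) := rfl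
    have e5 : c (a + 2 - 1) (b + 2 - 2) = c (a + 1) b := rfl
    rw [e1, e2, e3, e4, e5]
    simp
    linarith

theorem T_SER : S_SER := by
  classical
  intro m i j hij F hF
  let F0 : MvPowerSeries (Fin m) ℚ := fun d =>
    if (∀ k, k ≠ i → k ≠ j → d k = 0) then c (d i) (d j) else 0
  have hF0 : ∀ d : Fin m →₀ ℕ, coeff d F0 =
      if (∀ k, k ≠ i → k ≠ j → d k = 0) then c (d i) (d j) else 0 := fun d => rfl
  have hterm : ∀ (α β : ℕ) (d : Fin m →₀ ℕ), coeff d (F0 * (X i ^ α * X j ^ β)) =
      if (∀ k, k ≠ i → k ≠ j → d k = 0) then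
        (if α ≤ d i ∧ β ≤ d j then c (d i - α) (d j - β) else 0) else 0 := by
    intro α β d
    have h1 : (X i ^ α * X j ^ β : MvPowerSeries (Fin m) ℚ) =
        monomial (Finsupp.single i α + Finsupp.single j β) 1 := by
      rw [X_pow_eq, X_pow_eq, monomial_mul_monomial, one_mul]
    have hi : (Finsupp.single i α + Finsupp.single j β : Fin m →₀ ℕ) i = α := by
      rw [Finsupp.add_apply, Finsupp.single_eq_same, Finsupp.single_eq_of_ne hij, add_zero]
    have hj : (Finsupp.single i α + Finsupp.single j β : Fin m →₀ ℕ) j = β := by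
      rw [Finsupp.add_apply, Finsupp.single_eq_same, Finsupp.single_eq_of_ne hij.symm, zero_add]
    have hk : ∀ k, k ≠ i → k ≠ j →
        (Finsupp.single i α + Finsupp.single j β : Fin m →₀ ℕ) k = 0 := by
      intro k hki hkj
      rw [Finsupp.add_apply, Finsupp.single_eq_of_ne hki, Finsupp.single_eq_of_ne hkj, add_zero]
    have hle : (Finsupp.single i α + Finsupp.single j β ≤ d) ↔ (α ≤ d i ∧ β ≤ d j) := by
      constructor
      · intro h
        have h2 := h i
        have h3 := h j
        rw [hi] at h2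
        rw [hj] at h3
        exact ⟨h2, h3⟩
      · rintro ⟨h2, h3⟩ k
        by_cases hki : k = i
        · rw [hki, hi]
          exact h2
        · by_cases hkj : k = j
          · rw [hkj, hj]
            exact h3
          · rw [hk k hki hkj]
            exact Nat.zero_le _
    rw [h1, coeff_mul_monomial, mul_one, hF0]
    have hP : (∀ k, k ≠ i → k ≠ j →
        (d - (Finsupp.single i α + Finsupp.single j β)) k = 0) ↔
        (∀ k, k ≠ i → k ≠ j → d k = 0) := by
      constructor
      · intro h k hki hkj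
        have := h k hki hkj
        rw [Finsupp.tsub_apply, hk k hki hkj, Nat.sub_zero] at this
        exact this
      · intro h k hki hkj
        rw [Finsupp.tsub_apply, h k hki hkj, Nat.zero_sub]
    rw [Finsupp.tsub_apply, Finsupp.tsub_apply, hi, hj]
    simp only [hle, hP]
    by_cases h5 : ∀ k, k ≠ i → k ≠ j → d k = 0
    · simp only [if_pos h5]
    · simp only [if_neg h5, ite_self]
  have hprod : F0 * ((1 - X i * X j) * (1 - X i - X j)) = X j - X i := by
    have hexp : F0 * ((1 - X i * X j) * (1 - X i - X j)) =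
        F0 - F0 * (X i ^ 1 * X j ^ 0) - F0 * (X i ^ 0 * X j ^ 1) - F0 * (X i ^ 1 * X j ^ 1) +
          F0 * (X i ^ 2 * X j ^ 1) + F0 * (X i ^ 1 * X j ^ 2) := by ring
    rw [hexp]
    ext d
    rw [map_add, map_add, map_sub, map_sub, map_sub, map_sub, hterm, hterm, hterm, hterm, hterm,
      hF0, coeff_X, coeff_X]
    by_cases hd : ∀ k, k ≠ i → k ≠ j → d k = 0
    · simp only [if_pos hd]
      have h1 := crel (d i) (d j)
      rw [h1]
      have h2 : (d = Finsupp.single j 1) ↔ (d i = 0 ∧ d j = 1) := by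
        constructor
        · intro h
          rw [h, Finsupp.single_eq_same, Finsupp.single_eq_of_ne hij]
          exact ⟨rfl, rfl⟩
        · rintro ⟨h3, h4⟩
          ext k
          by_cases hkj : k = j
          · rw [hkj, h4, Finsupp.single_eq_same]
          · rw [Finsupp.single_eq_of_ne hkj]
            by_cases hki : k = i
            · rw [hki, h3]
            · exact hd k hki hkj
      have h3 : (d = Finsupp.single i 1) ↔ (d i = 1 ∧ d j = 0) := by
        constructor
        · intro h
          rw [h, Finsupp.single_eq_same, Finsupp.single_eq_of_ne hij.symm]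
          exact ⟨rfl, rfl⟩
        · rintro ⟨h3, h4⟩
          ext k
          by_cases hki : k = i
          · rw [hki, h3, Finsupp.single_eq_same]
          · rw [Finsupp.single_eq_of_ne hki]
            by_cases hkj : k = j
            · rw [hkj, h4]
            · exact hd k hki hkj
      simp only [h2, h3]
    · simp only [if_neg hd]
      have h2 : ¬ (d = Finsupp.single j 1) := by
        rintro rfl
        apply hd
        intro k _ hkj
        exact Finsupp.single_eq_of_ne hkj
      have h3 : ¬ (d = Finsupp.single i 1) := by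
        rintro rfl
        apply hd
        intro k hki _
        exact Finsupp.single_eq_of_ne hki
      rw [if_neg h2, if_neg h3]
      ring
  have hne : ((1 - X i * X j) * (1 - X i - X j) : MvPowerSeries (Fin m) ℚ) ≠ 0 := by
    intro h
    have h1 := congrArg constantCoeff h
    simp at h1
  have hFF : F = F0 := mul_right_cancel₀ hne (hF.trans hprod.symm)
  intro d
  rw [hFF]
  exact hF0 d

end Pool.Agent.W465.OS
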