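import Pool.Agent.W98.OS.Defs

set_option autoImplicit false

namespace Pool.Agent.W465.OS

open Pool.Agent.Helper929 Pool.Agent.W98.OS MvPowerSeries

theorem T_VC : S_VC := by
  classical
  intro m F
  have h1 : Van (fun i : Fin m => (X i : MvPowerSeries (Fin m) ℚ)) =
      (Matrix.vandermonde (fun i : Fin m => (X i : MvPowerSeries (Fin m) ℚ))).det := by
    rw [Matrix.det_vandermonde]
    rfl
  rw [h1, Matrix.det_apply, Finset.mul_sum, map_sum]
  have hterm : ∀ σ : Equiv.Perm (Fin m),
      coeff (e0 m) (F * (Equiv.Perm.sign σ •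
        ∏ i, Matrix.vandermonde (fun i : Fin m => (X i : MvPowerSeries (Fin m) ℚ)) (σ i) i)) =
      if σ = 1 then constantCoeff F else 0 := by
    intro σ
    have h2 : ∏ i, Matrix.vandermonde (fun i : Fin m => (X i : MvPowerSeries (Fin m) ℚ)) (σ i) i =
        monomial (∑ i : Fin m, Finsupp.single (σ i) (i : ℕ)) (1 : ℚ) := by
      have h3 : ∀ i : Fin m,
          Matrix.vandermonde (fun i : Fin m => (X i : MvPowerSeries (Fin m) ℚ)) (σ i) i =
          monomial (Finsupp.single (σ i) (i : ℕ)) (1 : ℚ) := by
        intro i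
        rw [Matrix.vandermonde_apply, X_pow_eq]
      rw [Finset.prod_congr rfl (fun i _ => h3 i), prod_monomial]
      congr 1
      exact Finset.prod_const_one
    have happ : ∀ k : Fin m, (∑ i : Fin m, Finsupp.single (σ i) (i : ℕ)) (σ k) = (k : ℕ) := by
      intro k
      rw [Finsupp.finsetSum_apply, Finset.sum_eq_single k]
      · exact Finsupp.single_eq_same
      · intro i _ hik
        apply Finsupp.single_eq_of_ne
        intro h
        exact hik (σ.injective h.symm)
      · intro h
        exact absurd (Finset.mem_univ k) h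
    have h4 : F * (Equiv.Perm.sign σ •
        ∏ i, Matrix.vandermonde (fun i : Fin m => (X i : MvPowerSeries (Fin m) ℚ)) (σ i) i) =
        Equiv.Perm.sign σ • (F * monomial (∑ i : Fin m, Finsupp.single (σ i) (i : ℕ)) (1 : ℚ)) := by
      rw [h2, mul_smul_comm]
    rw [h4]
    by_cases hσ : σ = 1
    · rw [if_pos hσ, hσ, Equiv.Perm.sign_one, one_smul, coeff_mul_monomial]
      have h5 : (∑ i : Fin m, Finsupp.single ((1 : Equiv.Perm (Fin m)) i) (i : ℕ)) = e0 m := by
        ext k
        have := happ k
        rw [hσ] at this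
        exact this
      rw [h5, if_pos le_rfl, tsub_self, mul_one, coeff_zero_eq_constantCoeff]
    · rw [if_neg hσ]
      have h6 : coeff (e0 m) (F * monomial (∑ i : Fin m, Finsupp.single (σ i) (i : ℕ)) (1 : ℚ)) =
          0 := by
        rw [coeff_mul_monomial, if_neg]
        intro hle
        apply hσ
        have h7 : ∀ k : Fin m, (k : ℕ) ≤ (σ k : ℕ) := by
          intro k
          have h8 := hle (σ k)
          rw [happ] at h8
          exact h8
        have h9 : ∑ k : Fin m, (k : ℕ) = ∑ k : Fin m, (σ k : ℕ) :=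
          (Equiv.sum_comp σ (fun k : Fin m => (k : ℕ))).symm
        have h10 := (Finset.sum_eq_sum_iff_of_le (fun k _ => h7 k)).1 h9
        ext k
        rw [← h10 k (Finset.mem_univ k)]
        rfl
      rcases Int.units_eq_one_or (Equiv.Perm.sign σ) with h | h
      · rw [h, one_smul, h6]
      · rw [h, Units.neg_smul, one_smul, map_neg, h6, neg_zero]
  rw [Finset.sum_congr rfl (fun σ _ => hterm σ), Finset.sum_ite_eq' Finset.univ,
    if_pos (Finset.mem_univ _)]

end Pool.Agent.W465.OS
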